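import Pool.Agent.Helper13.VB.Nav
import Pool.Agent.Helper13.VB.Asy

/-!
# Navarro's conjecture for `p`-group extensions: few failing blocks of the groups `C_r ≀ A_n`

The definitions are those of the library file `Pool.Graph.R_seed8.Y63.NV.Defs` (and `Stm3`) and of
`Pool.Agent.Helper13.VB.Nav`:

* `IsIrrTrace φ`: `φ` is the trace function of an irreducible representation over the algebraically
  closed field `F` of characteristic `p` (these functions correspond to the irreducible Brauer
  characters).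
* `IsBlock B`: `B` is a `p`-block, given as an `F`-algebra homomorphism from the centre of `F[G]` (the
  class functions with the convolution) to `F`.
* `numIBr G B`: the number of `Γ`-invariant irreducible traces of `G` in `B`.
* `numDz p red G Q B`: the number of characters of `p`-defect zero of `N_Γ(Q)/Q` whose inflation lies in
  a block which induces a block of `Γ` covering `B` (in terms of the reductions modulo `p` of the
  central characters).
* `NavarroTheta p red G`, for a normal subgroup `G` of `Γ`: Navarro's equality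
  `|IBr_Γ(B)| = ∑_{Q ∈ Θ_B/Γ} |dz(N_Γ(Q)/Q | B)|` for all `Γ`-invariant blocks `B` of `G`. For `G = Γ`
  this is the blockwise Alperin weight conjecture for `Γ`.
* `Fails p red G B`: `B` is a `Γ`-invariant block of `G` for which Navarro's equality is false
  (`theta_iff_fails`). `Failing p red G S`: `S` is a finite set of such blocks, different as blocks, that
  is, as functions on the class functions.
* `Wr S H Ω = S^Ω ⋊ H`. `ov r N`, for a normal subgroup `N` of `K`: the normal subgroup `C_r^K ⋊ N` of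
  the regular wreath product `C_r ≀ K = C_r^K ⋊ K`.

Proof. Let `K ≥ Γ`, `K = N Γ` and `G = N ∩ Γ`. For each nonempty subset `Δ` of `K` whose stabilizer is
`Γ` (for the multiplication from the left) the linear character `f ↦ ∏ τ(f(w))`, `w ∈ Δ`, of `C_r^K` and
an invariant block `B` of `G` give an invariant block of `C_r^K ⋊ N` with the same numbers as `B`. The
blocks for subsets in different orbits of `K` are different. There are `2 ^ [K : Γ]` subsets which are
stable under `Γ`, and at most `|K| 2 ^ ([K : Γ] / 2)` of them are stable under a larger group. -/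

set_option autoImplicit false

open Pool.Agent.Helper18.BR Pool.Agent.Helper18.NV Pool.Agent.Helper13.VB
open Pool.Agent.Y63.NV (IsClassFun NavarroTheta)

namespace Pool.Agent.Results.MP_0c8ca5_al.FewFailingBlocks

/-- the group `C_r ≀ A_n` -/
abbrev CA (r n : ℕ) : Type :=
  Wr (Multiplicative (ZMod r)) (alternatingGroup (Fin n)) (alternatingGroup (Fin n))

section defs

variable (p : ℕ) {F : Type} [Field F] (red : integralClosure ℤ ℂ →+* F) (r : ℕ)

/-- If Navarro's equality fails for an invariant block of `N ∩ Γ ⊴ Γ`, `N ⊴ K`, `Γ ≤ K`, `N Γ = K`, then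
it fails for at least `2 ^ [K : Γ] / |K| - 2 ^ ([K : Γ] / 2)` invariant blocks of
`C_r^K ⋊ N ⊴ C_r ≀ K`. -/
def ManyForSupplements : Prop :=
  ∀ (K : Type) [Group K] [Finite K] (N : Subgroup K) [N.Normal] (Γ : Subgroup K), N ⊔ Γ = ⊤ →
    (∃ B, Fails p red (N.subgroupOf Γ) B) →
    ∃ S, Failing p red (ov r N) S ∧ 2 ^ Γ.index ≤ Nat.card K * (S.card + 2 ^ (Γ.index / 2))

/-- If Navarro's equality fails for an invariant block of a normal subgroup `G` of `p`-power index, then
for every `n ≥ max (5, 2 |G|)` it fails for at least `2 ^ (n! / (4 |G|))` blocks of `C_r ≀ A_n`. -/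
def ManyForAlternating : Prop :=
  ∀ (Γ : Type) [Group Γ] [Finite Γ] (G : Subgroup Γ) [G.Normal], IsPGroup p (Γ ⧸ G) →
    (∃ B, Fails p red G B) → ∀ n : ℕ, 5 ≤ n → 2 * Nat.card G ≤ n →
    ∃ S, Failing p red (⊤ : Subgroup (CA r n)) S ∧ 2 ^ (n.factorial / (4 * Nat.card G)) ≤ S.card

/-- Navarro's equality for all `G ⊴ Γ` such that `Γ/G` is a `p`-group -/
def NavarroForAll : Prop :=
  ∀ (Γ : Type) [Group Γ] [Finite Γ] (G : Subgroup Γ) [G.Normal], IsPGroup p (Γ ⧸ G) →
    NavarroTheta p red G

/-- For every `ε > 0` there are arbitrarily large `n ∈ I` such that Navarro's equality for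
`G = Γ = C_r ≀ A_n` fails for at most `|C_r ≀ A_n| ^ ε` blocks. -/
def FewFailures (I : Set ℕ) : Prop :=
  ∀ ε : ℝ, 0 < ε → ∀ n₀ : ℕ, ∃ n ∈ I, n₀ ≤ n ∧
    ∀ S, Failing p red (⊤ : Subgroup (CA r n)) S → (S.card : ℝ) ≤ (Nat.card (CA r n) : ℝ) ^ ε

end defs

/-- **Few failing blocks.** Let `p ≠ r` be primes and `C_r` the cyclic group of order `r`.
(1) Let `N` be a normal subgroup of the finite group `K`, and let `Γ ≤ K` with `N Γ = K`. If Navarro's
equality fails for an invariant block of the normal subgroup `N ∩ Γ` of `Γ`, then it fails for at least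
`2 ^ [K : Γ] / |K| - 2 ^ ([K : Γ] / 2)` invariant blocks of the normal subgroup `C_r^K ⋊ N` of `C_r ≀ K`.
(2) If Navarro's equality fails for an invariant block of a normal subgroup `G` of `p`-power index of a
finite group `Γ`, then for every `n ≥ max (5, 2 |G|)` it fails for `G = Γ = C_r ≀ A_n` for at least
`2 ^ (n! / (4 |G|))` (rounded down in the exponent) blocks.
(3) Let `I` be an infinite set of natural numbers. Navarro's conjecture (for all `G ⊴ Γ` with `Γ/G` a
`p`-group) is true if and only if for every `ε > 0` there are arbitrarily large `n ∈ I` such that the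
equality of the blockwise Alperin weight conjecture (Navarro's equality for `G = Γ`) fails for at most
`|C_r ≀ A_n| ^ ε` blocks of `C_r ≀ A_n`. -/
theorem result (p : ℕ) [Fact p.Prime] (F : Type) [Field F] [IsAlgClosed F] [CharP F p]
    (red : integralClosure ℤ ℂ →+* F) (r : ℕ) [Fact r.Prime] (hr : r ≠ p) :
    ManyForSupplements p red r ∧ ManyForAlternating p red r ∧
      ∀ I : Set ℕ, I.Infinite → (NavarroForAll p red ↔ FewFailures p red r I) := by
  have hr0 : NeZero r := ⟨(Fact.out : r.Prime).ne_zero⟩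
  have hS : ¬ p ∣ Nat.card (Multiplicative (ZMod r)) := by
    rw [Nat.card_congr Multiplicative.toAdd, Nat.card_zmod]
    intro h
    exact hr ((Nat.prime_dvd_prime_iff_eq (Fact.out : p.Prime) (Fact.out : r.Prime)).1 h).symm
  -- the basic bound
  have key : ∀ (K : Type) [Group K] [Finite K] (Γ : Type) [Group Γ] [Finite Γ] (i : Γ →* K),
      Function.Injective i → ∀ (N : Subgroup K) [N.Normal], (∀ k : K, ∃ g : Γ, k * (i g)⁻¹ ∈ N) →
      (∃ B, Fails p red (N.comap i) B) →
      ∃ S, Failing p red (ov r N) S ∧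
        2 ^ i.range.index ≤ Nat.card K * (S.card + 2 ^ (i.range.index / 2)) := by
    intro K _ _ Γ _ _ i hi N _ hT ⟨B, hB⟩
    obtain ⟨f, hf1, hf2⟩ := exists_map_nav p F red (Multiplicative (ZMod r)) hS hi N hT hB
    obtain ⟨S, hS1, hS2, hS3⟩ := card_image_sel i.range
      (fun b b' => ∃ c, IsClassFun c ∧ b c ≠ b' c) (fun b ⟨c, _, h⟩ => h rfl) f hf2
    refine ⟨S, ⟨fun b hb => ?_, hS2⟩, hS3⟩
    obtain ⟨Δ, rfl⟩ := hS1 b hb
    exact hf1 Δ
  -- alternating groups
  have key2 : ∀ (H : Type) [Group H] [Finite H], (∃ B, Fails p red (⊤ : Subgroup H) B) →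
      ∀ n : ℕ, 5 ≤ n → 2 * Nat.card H ≤ n →
      ∃ S, Failing p red (⊤ : Subgroup (CA r n)) S ∧
        2 ^ (n.factorial / (4 * Nat.card H)) ≤ S.card := by
    intro H _ _ hB n hn hHn
    obtain ⟨i, hi⟩ := exists_alt H n hHn
    rw [← Subgroup.comap_top i] at hB
    obtain ⟨S, hS1, hS2⟩ := key _ H i hi ⊤ (fun k => ⟨1, Subgroup.mem_top _⟩) hB
    have h1 := (alt_bound hn Nat.card_pos hHn i.range
      (Nat.card_congr (MonoidHom.ofInjective hi).toEquiv).symm hS2).2
    have h2 : ov r (⊤ : Subgroup (alternatingGroup (Fin n))) = (⊤ : Subgroup (CA r n)) :=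
      Subgroup.comap_top _
    have h3 : ∃ S, Failing p red (ov r (⊤ : Subgroup (alternatingGroup (Fin n)))) S ∧
        2 ^ (n.factorial / (4 * Nat.card H)) ≤ S.card := ⟨S, hS1, h1⟩
    rwa [h2] at h3
  have key3 : ∀ (Γ : Type) [Group Γ] [Finite Γ] (G : Subgroup Γ) [G.Normal], IsPGroup p (Γ ⧸ G) →
      (∃ B, Fails p red G B) → ∀ n : ℕ, 5 ≤ n → 2 * Nat.card G ≤ n →
      ∃ S, Failing p red (⊤ : Subgroup (CA r n)) S ∧
        2 ^ (n.factorial / (4 * Nat.card G)) ≤ S.card := by
    intro Γ _ _ G _ hp hB n hn hGn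
    -- a group `H` of order at most `|G|`
    obtain ⟨H, i1, i2, hH1, hH2⟩ : ∃ (H : Type) (_ : Group H) (_ : Finite H),
        Nat.card H ≤ Nat.card G ∧ ∃ B, Fails p red (⊤ : Subgroup H) B := by
      by_contra hno
      push Not at hno
      obtain ⟨B, hB⟩ := hB
      refine (theta_iff_fails p red G).1 ?_ B hB
      refine (Pool.Agent.Y63.NV.block_strong red
        (fun H _ => Finite H ∧ Nat.card H ≤ Nat.card G) ⟨?_, ?_, ?_⟩).1 ?_ Γ G G le_rfl
        ⟨inferInstance, le_rfl⟩ hp
      · rintro A B _ _ ⟨h1, h2⟩ ⟨e⟩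
        exact ⟨Finite.of_equiv A e.toEquiv, by rwa [← Nat.card_congr e.toEquiv]⟩
      · rintro A _ ⟨h1, h2⟩ H
        exact ⟨inferInstance, (Subgroup.card_le_card_group H).trans h2⟩
      · rintro A _ ⟨h1, h2⟩ M _ _
        exact ⟨inferInstance,
          (Nat.card_le_card_of_surjective _ (QuotientGroup.mk'_surjective M)).trans h2⟩
      · rintro H _ hf ⟨-, h2⟩ -
        exact (theta_iff_fails p red _).2 fun B => hno H _ hf h2 B
    obtain ⟨S, hS1, hS2⟩ := key2 H hH2 n hn ((Nat.mul_le_mul_left 2 hH1).trans hGn)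
    refine ⟨S, hS1, le_trans ?_ hS2⟩
    apply Nat.pow_le_pow_right (by norm_num)
    exact Nat.div_le_div_left (Nat.mul_le_mul_left 4 hH1) (Nat.mul_pos (by norm_num) Nat.card_pos)
  refine ⟨fun K _ _ N _ Γ hT hB => ?_, key3, fun I hI => ⟨fun h ε _ n₀ => ?_, fun h Γ _ _ G _ hG => ?_⟩⟩
  · obtain ⟨S, hS1, hS2⟩ := key K Γ Γ.subtype (Subgroup.subtype_injective _) N (fun k => by
      obtain ⟨g, hg, h1⟩ := sup_top_iff.1 hT k
      exact ⟨⟨g, hg⟩, h1⟩) hB
    rw [Subgroup.range_subtype] at hS2
    exact ⟨S, hS1, hS2⟩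
  · obtain ⟨n, hn, hn0⟩ := hI.exists_gt n₀
    refine ⟨n, hn, hn0.le, fun S hS' => ?_⟩
    have h3 : S = ∅ := by
      rw [Finset.eq_empty_iff_forall_notMem]
      intro e he
      refine (theta_iff_fails p red _).1 (h _ _ ?_) e (hS'.1 e he)
      intro x
      refine ⟨0, ?_⟩
      obtain ⟨y, rfl⟩ := QuotientGroup.mk_surjective x
      rw [← QuotientGroup.mk_pow, QuotientGroup.eq_one_iff]
      trivial
    rw [h3, Finset.card_empty, Nat.cast_zero]
    positivity
  · by_contra hX
    rw [theta_iff_fails] at hX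
    push Not at hX
    obtain ⟨n, hn, hn0, hb⟩ := h (eps r (Nat.card G)) (eps_pos Nat.card_pos)
      (max 5 (2 * Nat.card G))
    obtain ⟨S, hS1, hS2⟩ := key3 Γ G hG hX n ((le_max_left _ _).trans hn0)
      ((le_max_right _ _).trans hn0)
    exact too_many Nat.card_pos ((le_max_left _ _).trans hn0) ((le_max_right _ _).trans hn0) hS2
      (hb S hS1)

end Pool.Agent.Results.MP_0c8ca5_al.FewFailingBlocks
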