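import Pool.Agent.Helper13.BW.Cls
import Pool.Agent.Helper13.BW.Iso

/-!
# Navarro's blockwise conjecture: one sequence of groups decides, and a zero-one law

The library reduces Navarro's equality for the invariant blocks of all normal subgroups `G ⊴ Γ` with
`Γ/G` a `p`-group to the equality `l(B) = w(B)` for the blocks of the groups without normal subgroups
of index `p` and without nontrivial normal `p`-subgroups (`Γ = G`; `w(B)` is the number of classes of
weights). Let `G_0, G_1, …` be a sequence of finite groups, `Γ_0 = G_0` and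
`Γ_{j+1} = Γ_j ^ (m_j + 1) × G_{j+1}` (`Gam G m j`). If the exponents grow fast enough, then the equality
for the blocks of all `G_i` follows if the numbers `l(B)` and `w(B)` agree up to factors `|Γ_j|^ε` for
the blocks of infinitely many `Γ_j` (the `j` may depend on `ε`).

Proof. The numbers of the simple modules (weights) on which a central element does not vanish are
multiplicative for tensor products of central elements, and they are at most `4 ^ |G|`. For a block
`B` of `G_i` one takes the tensor product of a central element which isolates `B` with unit elements.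
If the two numbers for `Γ_j` are different, then their logarithms differ by at least `4 ^ (-|Γ_j|)`, and
the factor `G_{j+1}` of `Γ_j ^ (m_j + 1) × G_{j+1}` changes the difference only by a small proportion.
-/

set_option autoImplicit false

open scoped Classical

open Pool.Agent.Helper13.MG (FG)
open Pool.Agent.Helper13.BW
open Pool.Agent.Y63.NV (Closed Reduced)
open Pool.Agent.Results.MP_0c8ca5_al.AllScalesOrNone (ForPairs ForBlocks Red pairs_of_bawc
  blocks_of_pairs)

namespace Pool.Agent.Results.MP_0c8ca5_al.OneSequenceDecides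

/-- `l(B) = w(B)` for all blocks `B` of `Γ_j`, for infinitely many `j`. -/
def Often (p : ℕ) {F : Type} [Field F] (red : integralClosure ℤ ℂ →+* F) (Γ : ℕ → FG) : Prop :=
  ∀ i : ℕ, ∃ j, i ≤ j ∧ Eqw p red (Γ j).G

/-- For each `ε > 0` there are infinitely many `j` such that `l(B)` and `w(B)` agree up to the factor
`|Γ_j|^ε` for all blocks `B` of `Γ_j`. -/
def NearOften (p : ℕ) {F : Type} [Field F] (red : integralClosure ℤ ℂ →+* F) (Γ : ℕ → FG) : Prop :=
  ∀ ε : ℝ, 0 < ε → ∀ i : ℕ, ∃ j, i ≤ j ∧ NearB p red ε (Γ j).G

/-- **One sequence of groups decides Navarro's blockwise conjecture for `p`-group extensions.**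
`ForPairs p red X (=)` is Navarro's equality for the invariant blocks of all `G ⊴ Γ` such that `G`
contains a normal subgroup of `Γ` in `X` with `p`-power index (all pairs with `Γ/G` a `p`-group, if `X`
is the class of all groups). `Eqw p red G` says that `l(B) = w(B)` for all blocks `B` of `G`.

(1) Let `X` be a class of groups closed under isomorphisms, subgroups, quotients by normal
`p`-subgroups and direct products which contains a group of prime order `q ≠ p`. There is a sequence
`Γ_0, Γ_1, …` of finite groups in `X` without normal subgroups of index `p` and without nontrivial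
normal `p`-subgroups such that the following are equivalent for every algebraically closed field `F`
of characteristic `p` (and every reduction of algebraic integers): Navarro's equality for all pairs
and blocks; `l(B) = w(B)` for the blocks of infinitely many `Γ_j`; for every `ε > 0` the numbers `l(B)`
and `w(B)` agree up to the factor `|Γ_j|^ε` for the blocks of infinitely many `Γ_j`.

(2) Let `G_0 ≠ 1, G_1, …` be finite groups, `Γ_0 = G_0`, `Γ_{j+1} = Γ_j ^ (m_j + 1) × G_{j+1}` with
`m_j ≥ 8 ^ (j+1) 4 ^ |Γ_j| 4 ^ |G_{j+1}|`. The equality `l(B) = w(B)` holds for the blocks of all `Γ_j` if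
and only if for every `ε > 0` it holds up to the factor `|Γ_j|^ε` for infinitely many `Γ_j`, and then it
holds for the blocks of all `G_i`.

(3) If `l(B) ≠ w(B)` for a block of one of the groups `G_0, …, G_n`, then for every `N` the equality
fails for some block of all but at most `N ^ n` of the `N ^ (n+1)` groups `∏ G_i ^ e_i`,
`1 ≤ e_i ≤ N`. -/
theorem result (p : ℕ) [Fact p.Prime] :
    (∀ X : ∀ (H : Type) [Group H], Prop, Closed p X →
      (∀ (H K : Type) [Group H] [Group K], X H → X K → X (H × K)) →
      (∃ q : ℕ, q.Prime ∧ q ≠ p ∧ X (Multiplicative (ZMod q))) →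
      ∃ Γ : ℕ → FG, (∀ j, Red p X (Γ j).G) ∧
        ∀ (F : Type) [Field F] [IsAlgClosed F] [CharP F p] (red : integralClosure ℤ ℂ →+* F),
          [ForPairs p red X (fun _ x y => x = y), Often p red Γ, NearOften p red Γ].TFAE) ∧
    (∀ (G : ℕ → FG) (m : ℕ → ℕ), 2 ≤ Nat.card (G 0).G →
      (∀ j, 8 ^ (j + 1) * 4 ^ Nat.card (Gam G m j).G * 4 ^ Nat.card (G (j + 1)).G ≤ m j) →
      ∀ (F : Type) [Field F] [IsAlgClosed F] [CharP F p] (red : integralClosure ℤ ℂ →+* F),
        ((∀ j, Eqw p red (Gam G m j).G) ↔ NearOften p red (Gam G m)) ∧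
        (NearOften p red (Gam G m) → ∀ i, Eqw p red (G i).G)) ∧
    (∀ (F : Type) [Field F] [IsAlgClosed F] [CharP F p] (red : integralClosure ℤ ℂ →+* F)
      (n : ℕ) (G : Fin (n + 1) → FG), (∃ i, ¬ Eqw p red (G i).G) → ∀ N : ℕ,
      Nat.card {e : Fin (n + 1) → Fin N // Eqw p red (piG n (fun i => powG (G i) (e i))).G} ≤
        N ^ n) := by
  refine ⟨?_, ?_, ?_⟩
  · intro X hX hP ⟨q, hq, hne, hqX⟩
    obtain ⟨G, hG0, hGX, hGall⟩ := exists_enum_class (p := p) X q hq hne hqX
    obtain ⟨m, hm⟩ := exists_m G
    have hcl : ∀ j, Red p X (Gam G m j).G :=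
      class_gam (fun Y => Red p X Y.G)
        (fun Y Z hY hZ => ⟨hP _ _ hY.1 hZ.1, reduced_mul hY.2 hZ.2⟩) G hGX m
    refine ⟨Gam G m, hcl, ?_⟩
    intro F _ _ _ red
    tfae_have 1 → 2 := by
      intro h i
      exact ⟨i, le_rfl, fun B hB => blocks_of_pairs red X hX h _ (hcl i) B hB⟩
    tfae_have 2 → 3 := by
      intro h ε hε i
      obtain ⟨j, hj, hE⟩ := h i
      exact ⟨j, hj, near_of_eqw red hε hE⟩
    tfae_have 3 → 1 := by
      intro h
      refine pairs_of_bawc red X hX fun H _ _ hH B hB => ?_
      obtain ⟨i, ⟨e⟩⟩ := hGall H hH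
      exact eqw_iso red e (one_seq red hG0 hm h i) B hB
    tfae_finish
  · intro G m h2 hm F _ _ _ red
    refine ⟨⟨fun h ε hε i => ⟨i, le_rfl, near_of_eqw red hε (h i)⟩, one_seq_self red h2 hm⟩,
      one_seq red h2 hm⟩
  · intro F _ _ _ red n G ⟨i, hi⟩ N
    exact zero_one red N G i hi

end Pool.Agent.Results.MP_0c8ca5_al.OneSequenceDecides
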