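import Pool.Agent.Helper15.SV.Min3

/-!
# A reduction of Navarro's equality to almost simple groups

Let `G` be a normal subgroup of the finite group `Γ` such that `Γ/G` is a `p`-group. Summed over the
`Γ`-invariant blocks of `G`, Navarro's conjecture says that the number of `Γ`-invariant irreducible
characters of `G` over `F` (an algebraically closed field of characteristic `p`) is
`∑_Q |dz(N_Γ(Q)/Q)|`, where `Q` runs over representatives of the `Γ`-classes of `p`-subgroups with
`GQ = Γ`. This is `NavarroSum p F G` (`Y63/NV/Free.lean`).

Let `(G, Γ)` be a counterexample for which `(|G : Z(G)|, |G|, |Γ|)` is minimal in the lexicographic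
order. We prove that one can take `Γ = G`, and that `G` has a quasisimple normal subgroup `N` such
that `C_G(N) = Z(G) ≤ N` (so that `G/Z(G)` is almost simple with socle `N/Z(N)`). Moreover
`O_p(G) = 1`, `G` has no normal subgroup of index `p`, `Z(G)` is cyclic and contained in `G'`, and
`G/N` has a normal elementary abelian Sylow `p`-subgroup whose quotient is abelian and generated by
two elements.

The proof counts homomorphisms from surface groups to supplements of normal subgroups of `G`, to
central extensions of sections of `G` (`Helper15/AWC`, `Helper15/SV`) and to wreath products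
(`Helper15/QS`), together with the equivalence of Navarro's equality with Alperin's weight conjecture
(library, `Y63/NV/Free.lean`, `Y63/NV/Free2.lean`).

The definitions of `ClosedC`, `Smaller`, `Quasisimple`, `AlmostSimple` and `PE2` are in
`Helper15/AWC/DefsC.lean`.
-/

set_option autoImplicit false

namespace Pool.Agent.Results.MP_0c8ca5_al.QuasisimplePairs

open Pool.Agent.Y63.NV (NavarroSum)
open Pool.Agent.Helper15.AW (ClosedC Smaller)
open Pool.Agent.Helper15.QS (AlmostSimple)
open Pool.Agent.Helper15.SV (navarro_of_almost)

/-- **Reduction of Navarro's equality to almost simple groups.** Let `p` be a prime, `F` an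
algebraically closed field of characteristic `p` and `X` a class of groups closed under isomorphisms,
subgroups, quotients and under central extensions of finite groups by groups of order prime to `p`
(for instance the class of all groups). Navarro's equality, summed over the invariant blocks, holds
for all normal subgroups `G` of finite groups `Γ` such that `G` contains a normal subgroup `N` of `Γ`
in `X` for which `Γ/N` is a `p`-group, if (and only if) it holds with `G = Γ = H` for each finite
group `H` in `X` with the following properties:
(1) Navarro's equality holds for all pairs `(G, Γ)` (`Γ/G` a `p`-group) with `G` in `X` such that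
`(|G : Z(G)|, |G|)` is lexicographically smaller than `(|H : Z(H)|, |H|)`;
(2) `p` divides `|H|`, `H` has no normal subgroup of index `p` and no nontrivial normal `p`-subgroup;
(3) `Z(H)` is cyclic and contained in the commutator subgroup of `H`;
(4) `H` has a quasisimple normal subgroup `N` such that `C_H(N) = Z(H) ≤ N` and such that `H/N` has a
normal elementary abelian Sylow `p`-subgroup whose quotient is abelian and generated by two
elements. -/
theorem result (p : ℕ) [Fact p.Prime] (F : Type) [Field F] [IsAlgClosed F] [CharP F p]
    (X : ∀ (H : Type) [Group H], Prop) (hX : ClosedC p X) :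
    (∀ (H : Type) [Group H] [Finite H], X H → AlmostSimple p H →
      (∀ (Γ : Type) [Group Γ] [Finite Γ] (G : Subgroup Γ) [G.Normal], X G → IsPGroup p (Γ ⧸ G) →
        Smaller G H → NavarroSum p F G) → NavarroSum p F (⊤ : Subgroup H)) ↔
    ∀ (Γ : Type) [Group Γ] [Finite Γ] (N G : Subgroup Γ) [N.Normal] [G.Normal], N ≤ G → X N →
      IsPGroup p (Γ ⧸ N) → NavarroSum p F G := by
  constructor
  · intro h Γ _ _ N G _ _ hNG hN hp
    exact navarro_of_almost p F X hX h Γ N G hNG hN hp
  · intro h H _ _ hH _ _
    exact h H ⊤ ⊤ le_rfl (hX.iso _ _ hH ⟨Subgroup.topEquiv.symm⟩)
      (Pool.Agent.Y63.NV.pgroup_top p H)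

end Pool.Agent.Results.MP_0c8ca5_al.QuasisimplePairs
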