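import Pool.Agent.Helper18.NV.Main

/-!
# Navarro's conjecture for `p`-group extensions and regular wreath products

The definitions are those of the library file `Pool.Graph.R_seed8.Y63.NV.Defs` (and `Stm3`):

* `IsIrrTrace φ`: `φ` is the trace function of an irreducible representation over the algebraically
  closed field `F` of characteristic `p` (these functions correspond to the irreducible Brauer
  characters).
* `IsBlock B`: `B` is a `p`-block, given as an `F`-algebra homomorphism from the centre of `F[G]` (the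
  class functions with the convolution) to `F`.
* `numIBr G B`: the number of `Γ`-invariant irreducible traces of `G` in `B`.
* `numDz p red G Q B`: the number of characters of `p`-defect zero of `N_Γ(Q)/Q` whose inflation lies in
  a block which induces a block of `Γ` covering `B` (in terms of the reductions modulo `p` of the
  central characters).
* `NavarroTheta p red G`, for a normal subgroup `G` of `Γ`: Navarro's equality
  `|IBr_Γ(B)| = ∑_{Q ∈ Θ_B/Γ} |dz(N_Γ(Q)/Q | B)|` for all `Γ`-invariant blocks `B` of `G`. For `G = Γ`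
  this is the blockwise Alperin weight conjecture for `Γ`.
* `ov r N`, for a normal subgroup `N` of `K`: the normal subgroup `C_r^K ⋊ N` of the regular wreath
  product `C_r ≀ K = C_r^K ⋊ K`.
* `AltCase p red r n`: Navarro's equality for `G = Γ = C_r ≀ A_n`.
-/

set_option autoImplicit false

open Pool.Agent.Helper18.NV Pool.Agent.Y63.NV

namespace Pool.Agent.Results.MP_0c8ca5_al.RegularWreathPairs

/-- Let `p ≠ r` be primes and `C_r` the cyclic group of order `r`.
(1) Let `N` be a normal subgroup of the finite group `K` with `K/N` a `p`-group. Navarro's equality for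
the one pair `C_r^K ⋊ N ⊴ C_r ≀ K` implies Navarro's equality for all the pairs `N ∩ Γ ⊴ Γ`, where
`Γ ≤ K` and `N Γ = K`.
(2) Let `P` be a finite `p`-group and `I` an infinite set of natural numbers. Navarro's conjecture for
all finite groups `Γ` and `G ⊴ Γ` with `Γ/G ≅ P` is equivalent to Navarro's conjecture for the kernels
of the projections `C_r ≀ (A_n × P) → P`, `n ∈ I`.
(3) Navarro's conjecture (for all `G ⊴ Γ` with `Γ/G` a `p`-group) is equivalent to the blockwise
Alperin weight conjecture (Navarro's equality for `G = Γ`) for the groups `C_r ≀ A_n`, `n ∈ I`.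
(4) The blockwise Alperin weight conjecture for the one group `C_r ≀ A_n` implies Navarro's equality for
all `G ⊴ Γ` such that `G` contains a normal subgroup `N` of `Γ` of order at most `n/2` for which `Γ/N`
is a `p`-group. -/
theorem result (p : ℕ) [Fact p.Prime] (F : Type) [Field F] [IsAlgClosed F] [CharP F p]
    (red : integralClosure ℤ ℂ →+* F) (r : ℕ) [Fact r.Prime] (hr : r ≠ p) :
    (∀ (K : Type) [Group K] [Finite K] (N : Subgroup K) [N.Normal], IsPGroup p (K ⧸ N) →
      NavarroTheta p red (ov r N) →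
      ∀ Γ : Subgroup K, N ⊔ Γ = ⊤ → NavarroTheta p red (N.subgroupOf Γ)) ∧
    (∀ (P : Type) [Group P] [Finite P], IsPGroup p P → ∀ I : Set ℕ, I.Infinite →
      ((∀ (Γ : Type) [Group Γ] [Finite Γ] (G : Subgroup Γ) [G.Normal], Nonempty (Γ ⧸ G ≃* P) →
          NavarroTheta p red G) ↔
        ∀ n ∈ I, NavarroTheta p red (ov r (MonoidHom.snd (alternatingGroup (Fin n)) P).ker))) ∧
    (∀ I : Set ℕ, I.Infinite →
      ((∀ (Γ : Type) [Group Γ] [Finite Γ] (G : Subgroup Γ) [G.Normal], IsPGroup p (Γ ⧸ G) →
          NavarroTheta p red G) ↔ ∀ n ∈ I, AltCase p red r n)) ∧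
    ∀ n : ℕ, AltCase p red r n →
      ∀ (Γ : Type) [Group Γ] [Finite Γ] (N G : Subgroup Γ) [N.Normal] [G.Normal], N ≤ G →
        IsPGroup p (Γ ⧸ N) → 2 * Nat.card N ≤ n → NavarroTheta p red G := by
  have hS : ¬ p ∣ Nat.card (Multiplicative (ZMod r)) := by
    rw [Nat.card_congr Multiplicative.toAdd, Nat.card_zmod]
    intro h
    exact hr ((Nat.prime_dvd_prime_iff_eq (Fact.out : p.Prime) (Fact.out : r.Prime)).1 h).symm
  have h4 := @Pool.Agent.Helper18.NV.part_c p _ F _ _ _ red (Multiplicative (ZMod r)) _ _ _ hS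
  refine ⟨fun K _ _ N _ _ h Γ hT => Pool.Agent.Helper18.NV.part_a p F red _ hS N h Γ hT,
    fun P _ _ hP I hI => ⟨fun h n _ => ?_, fun h Γ _ _ G _ ⟨e⟩ => ?_⟩,
    fun I hI => ⟨fun h n _ => h _ _ ?_, fun h Γ _ _ G _ hG => ?_⟩,
    fun n h Γ _ _ N G _ _ hNG hN hn => h4 h Γ N G hNG hN hn⟩
  · unfold ov
    rw [MonoidHom.comap_ker]
    exact h _ _ ⟨QuotientGroup.quotientKerEquivOfSurjective _
      (Prod.snd_surjective.comp SemidirectProduct.rightHom_surjective)⟩
  · obtain ⟨n, hn, hn2⟩ := hI.exists_gt (2 * Nat.card Γ)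
    refine Pool.Agent.Helper18.NV.part_b p F red _ hS P ?_ Γ hn2.le G e
    rw [← MonoidHom.comap_ker]
    exact h n hn
  · intro x
    refine ⟨0, ?_⟩
    obtain ⟨y, rfl⟩ := QuotientGroup.mk_surjective x
    rw [← QuotientGroup.mk_pow, QuotientGroup.eq_one_iff]
    trivial
  · obtain ⟨n, hn, hn2⟩ := hI.exists_gt (2 * Nat.card G)
    exact h4 (h n hn) Γ G G le_rfl hG hn2.le

end Pool.Agent.Results.MP_0c8ca5_al.RegularWreathPairs
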